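import Pool.Agent.Helper43.QN.Stage
import Pool.Agent.Helper40.QG.Perf

/-!
AUT project (S00834): the ring `A0 J = F_2 + J` and characters of `GL_15(A0 J)`.
-/

set_option autoImplicit false
set_option linter.unusedSectionVars false

namespace QX40

open QN43 QG40 Matrix

variable {J : Type} [AddCommGroup J] [Module (ZMod 2) J] [Module (ZMod 2)ᵐᵒᵖ J]
  [IsCentralScalar (ZMod 2) J]

/-- the inclusion of the prime field -/
def incA : ZMod 2 →+* A0 J := TrivSqZeroExt.inlHom (ZMod 2) J

/-- the residue map -/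
def epsA : A0 J →+* ZMod 2 := (TrivSqZeroExt.fstHom (ZMod 2) (ZMod 2) J).toRingHom

theorem epsA_apply (a : A0 J) : epsA a = a.fst := rfl

theorem hsqA (a b : A0 J) (ha : epsA a = 0) (hb : epsA b = 0) : a * b = 0 := by
  rw [epsA_apply] at ha hb
  ext
  · rw [TrivSqZeroExt.fst_mul, ha, zero_mul]; rfl
  · rw [TrivSqZeroExt.snd_mul, ha, hb]
    simp

theorem add_self_J (j : J) : j + j = 0 := by
  have : (2 : ZMod 2) • j = 0 := by rw [show (2 : ZMod 2) = 0 from rfl, zero_smul]
  rwa [two_smul] at this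

theorem inr_mul_self (j j' : J) : (TrivSqZeroExt.inr j : A0 J) * TrivSqZeroExt.inr j' = 0 :=
  TrivSqZeroExt.inr_mul_inr _ _ _

/-- `1 + j` as a unit -/
def onej : Multiplicative J →* (A0 J)ˣ where
  toFun j := ⟨1 + TrivSqZeroExt.inr (Multiplicative.toAdd j), 1 - TrivSqZeroExt.inr (Multiplicative.toAdd j),
    by
      have := inr_mul_self (Multiplicative.toAdd j) (Multiplicative.toAdd j)
      linear_combination -this,
    by
      have := inr_mul_self (Multiplicative.toAdd j) (Multiplicative.toAdd j)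
      linear_combination -this⟩
  map_one' := by
    ext1
    simp
  map_mul' j j' := by
    ext1
    rw [Units.val_mul]
    have := inr_mul_self (Multiplicative.toAdd j) (Multiplicative.toAdd j')
    simp only [toAdd_mul, TrivSqZeroExt.inr_add]
    linear_combination -this

theorem onej_val (j : Multiplicative J) :
    ((onej j : (A0 J)ˣ) : A0 J) = 1 + TrivSqZeroExt.inr (Multiplicative.toAdd j) := rfl

theorem fst_unit (u : (A0 J)ˣ) : (u : A0 J).fst = 1 := by
  have h : epsA (u : A0 J) ≠ 0 := by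
    have : IsUnit (epsA (u : A0 J)) := u.isUnit.map epsA
    exact this.ne_zero
  exact isUnit_zmod2 h

theorem unit_eq (u : (A0 J)ˣ) : u = onej (Multiplicative.ofAdd (u : A0 J).snd) := by
  ext1
  rw [onej_val]
  ext
  · rw [fst_unit]; simp
  · simp

/-- the second component of a unit -/
def sndU : (A0 J)ˣ →* Multiplicative J where
  toFun u := Multiplicative.ofAdd (u : A0 J).snd
  map_one' := by simp
  map_mul' u v := by
    rw [← ofAdd_add]
    congr 1
    rw [Units.val_mul, TrivSqZeroExt.snd_mul, fst_unit, fst_unit]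
    simp [add_comm]

theorem onej_sndU (u : (A0 J)ˣ) : onej (sndU u) = u := (unit_eq u).symm

theorem sndU_onej (j : Multiplicative J) : sndU (onej j) = j := by
  change Multiplicative.ofAdd (1 + TrivSqZeroExt.inr (Multiplicative.toAdd j) : A0 J).snd = j
  simp

theorem unit_sq (u : (A0 J)ˣ) : u ^ 2 = 1 := by
  rw [← onej_sndU u, ← map_pow]
  have : sndU u ^ 2 = 1 := by
    rw [pow_two]
    exact congrArg Multiplicative.ofAdd (add_self_J (u : A0 J).snd)
  rw [this, map_one]

/-- scalar matrices -/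
def sc : (A0 J)ˣ →* (Mt (A0 J))ˣ :=
  Units.map ((Matrix.scalar (Fin 15) : A0 J →+* Mt (A0 J)) : A0 J →* Mt (A0 J))

theorem sc_val (u : (A0 J)ˣ) : (sc u : Mt (A0 J)) = Matrix.scalar (Fin 15) (u : A0 J) := rfl

theorem det_sc (u : (A0 J)ˣ) :
    (GeneralLinearGroup.det (sc u : GL (Fin 15) (A0 J)) : (A0 J)ˣ) = u := by
  ext1
  rw [GeneralLinearGroup.val_det_apply]
  change ((Matrix.scalar (Fin 15) (u : A0 J)) : Mt (A0 J)).det = u
  rw [Matrix.scalar_apply, det_diagonal, Finset.prod_const, Finset.card_univ, Fintype.card_fin,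
    ← Units.val_pow_eq_pow_val]
  congr 1
  rw [show (15 : ℕ) = 2 * 7 + 1 from rfl, pow_succ, pow_mul, unit_sq, one_pow, one_mul]

/-- every hom from `GL_15(A0 J)` to a commutative group is determined on the scalars -/
theorem hom_eq_sc {B : Type} [CommGroup B] (f : (Mt (A0 J))ˣ →* B) (D : (Mt (A0 J))ˣ) :
    f D = f (sc (GeneralLinearGroup.det (D : GL (Fin 15) (A0 J)))) := by
  have h1 := hom_eq_det (n := Fin 15) incA epsA (hsqA (J := J)) (by simp) 0 f D
  have h2 := hom_eq_det (n := Fin 15) incA epsA (hsqA (J := J)) (by simp) 0 f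
    (sc (GeneralLinearGroup.det (D : GL (Fin 15) (A0 J))))
  rw [h1, h2, det_sc]

/-- existence of an element of order 151 of `GL_15(A0 J)` -/
theorem exists_zA : ∃ z : (Mt (A0 J))ˣ, orderOf z = 151 := by
  obtain ⟨z0, hz0⟩ := exists_z
  exact ⟨cst (n := Fin 15) (incA (J := J)) z0,
    (orderOf_cst (n := Fin 15) (incA (J := J)) epsA z0).trans hz0⟩

theorem sumA0 (z : (Mt (A0 J))ˣ) (hz : orderOf z = 151) :
    ∑ i ∈ Finset.range 151, (z : Mt (A0 J)) ^ i = 0 :=
  sumA incA epsA (hsqA (J := J)) z hz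

theorem sumA0' (z : (Mt (A0 J))ˣ) (hz : orderOf z = 151) :
    ∑ i ∈ Finset.range 151, ((z⁻¹ : (Mt (A0 J))ˣ) : Mt (A0 J)) ^ i = 0 := by
  apply sumA0
  rw [orderOf_inv]
  exact hz

end QX40
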