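import Pool.Agent.Helper43.QN.QSpec
import Pool.Agent.Helper40.QX.A0

/-!
AUT project (S00834): the character part of `F_odd`.

`X(N') = DV W` equivariantly and `F_odd_of_aut`.
-/

set_option autoImplicit false
set_option linter.unusedSectionVars false

namespace QX40

open QN43 QG40 Matrix

variable {J B E W U O : Type}
    [AddCommGroup J] [Module (ZMod 2) J] [Module (ZMod 2)ᵐᵒᵖ J] [IsCentralScalar (ZMod 2) J]
    [Ring B] [AddCommGroup E] [Module (A0 J) E] [AddCommGroup W] [Module (A0 J) W]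
    [AddCommGroup U] [Module B U] [Group O] [DistribMulAction O W] [DistribMulAction O U]
    {κ : A0 J →+* B} {inc : E →+ W} {jU : U →+ (W →+ ZMod 2)} {Φ : J ≃+ (Fin 15 → W)}
    {p : NN0 κ E →* O}

variable {C Y : Type} [Group C] [AddCommGroup Y] [Module B Y]
    [DistribMulAction C Y] [SMulCommClass C B Y]

/-- the inclusion `N' → C'` -/
def emb : GG (G1s κ E) C Y →* GG (⊤ : Subgroup (NN κ E)) C Y where
  toFun x := ⟨x.v, (⟨x.c.1.1, trivial⟩, x.c.2)⟩
  map_one' := rfl
  map_mul' _ _ := rfl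

theorem emb_injective : Function.Injective (emb (κ := κ) (E := E) (C := C) (Y := Y)) := by
  intro x y hxy
  have h1 := congrArg SD.v hxy
  have h2 := congrArg SD.c hxy
  ext1
  · exact h1
  · refine Prod.ext ?_ ?_
    · apply Subtype.ext
      exact congrArg (fun z : (⊤ : Subgroup (NN κ E)) × C => z.1.1) h2
    · exact congrArg (fun z : (⊤ : Subgroup (NN κ E)) × C => z.2) h2

/-! ### vectors -/

theorem addE {M : Type} [AddCommGroup M] [Module (A0 J) M] (x : M) : x + x = 0 := by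
  have : (2 : A0 J) • x = 0 := by
    rw [two_eq_zero (incA (J := J)), zero_smul]
  rwa [two_smul] at this

theorem addY (κ : A0 J →+* B) {M : Type} [AddCommGroup M] [Module B M] (y : M) : y + y = 0 := by
  have h2 : (2 : B) = 0 := by
    rw [← map_ofNat κ 2, two_eq_zero (incA (J := J)), map_zero]
  have : (2 : B) • y = 0 := by rw [h2, zero_smul]
  rwa [two_smul] at this

theorem nsmul151 {M : Type} [AddCommGroup M] (h : ∀ x : M, x + x = 0) (x : M) :
    (151 : ℕ) • x = x := by
  have h2 : (2 : ℕ) • x = 0 := by rw [two_nsmul]; exact h x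
  rw [show (151 : ℕ) = 2 * 75 + 1 from rfl, succ_nsmul, mul_comm, mul_nsmul, smul_comm, h2]
  simp

theorem mact_sum {R M : Type} [Ring R] [AddCommGroup M] [Module R M] (s : Finset ℕ)
    (f : ℕ → Mt R) (v : Fin 15 → M) : mact (∑ i ∈ s, f i) v = ∑ i ∈ s, mact (f i) v := by
  classical
  induction s using Finset.induction_on with
  | empty => rw [Finset.sum_empty, Finset.sum_empty, map_zero]; rfl
  | insert a s ha ih => rw [Finset.sum_insert ha, Finset.sum_insert ha, mact_add_apply, ih]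

/-- a matrix with `∑_{i<N} m^i = 0` has no fixed vector -/
theorem fix_mact {R M : Type} [Ring R] [AddCommGroup M] [Module R M] (N : ℕ)
    (h : ∀ x : M, N • x = x)
    (m : Mt R) (hm : ∑ i ∈ Finset.range N, m ^ i = 0) (v : Fin 15 → M) (hv : mact m v = v) :
    v = 0 := by
  have hpow : ∀ i : ℕ, mact (m ^ i) v = v := by
    intro i
    induction i with
    | zero => simp
    | succ i ih => rw [pow_succ, mact_mul_apply, hv, ih]
  have h1 : mact (∑ i ∈ Finset.range N, m ^ i) v = N • v := by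
    rw [mact_sum, Finset.sum_congr rfl fun i _ => hpow i, Finset.sum_const, Finset.card_range]
  have h2 : N • v = v := by funext i; exact h (v i)
  rw [hm, h2] at h1
  rw [← h1, map_zero]
  rfl

/-- the restriction of `sig` to its range -/
def sgR : (Mt (A0 J))ˣ →* G1s κ E := (sig κ E).rangeRestrict

theorem sgR_val (D : (Mt (A0 J))ˣ) : ((sgR D : G1s κ E) : NN κ E) = sig κ E D := rfl

theorem sgR_surj (g : G1s κ E) : ∃ D, sgR D = g := by
  obtain ⟨D, hD⟩ := g.2
  exact ⟨D, Subtype.ext hD⟩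

theorem sig_injective (hκ : Function.Injective κ) : Function.Injective (sig κ E) := by
  rw [injective_iff_map_eq_one]
  intro D hD
  have h1 : kT κ ((D⁻¹ : (Mt (A0 J))ˣ) : Mt (A0 J)) = 1 := by
    rw [← sig_snd κ E D, hD]; rfl
  have h2 : ((D⁻¹ : (Mt (A0 J))ˣ) : Mt (A0 J)) = 1 := by
    ext i j : 1
    apply hκ
    have := congrFun (congrFun h1 j) i
    rw [kT_apply] at this
    rw [this]
    by_cases hij : i = j
    · subst hij; simp
    · rw [Matrix.one_apply_ne hij, Matrix.one_apply_ne (Ne.symm hij), map_zero]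
  have h3 : D⁻¹ = 1 := Units.ext h2
  exact inv_eq_one.1 h3

theorem kT_pow (m : Mt (A0 J)) (i : ℕ) : kT κ (m ^ i) = kT κ m ^ i := by
  induction i with
  | zero => simp
  | succ i ih => rw [pow_succ, kT_mul, ih, pow_succ']

theorem kT_sum (s : Finset ℕ) (f : ℕ → Mt (A0 J)) :
    kT κ (∑ i ∈ s, f i) = ∑ i ∈ s, kT κ (f i) := by
  classical
  induction s using Finset.induction_on with
  | empty => funext i j; simp [kT_apply]
  | insert a s ha ih => rw [Finset.sum_insert ha, Finset.sum_insert ha, kT_add, ih]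

theorem kT_zero : kT κ (0 : Mt (A0 J)) = 0 := by
  funext i j
  exact map_zero κ

theorem kT_sum_zero (N : ℕ) (m : Mt (A0 J)) (h : ∑ i ∈ Finset.range N, m ^ i = 0) :
    ∑ i ∈ Finset.range N, (kT κ m) ^ i = 0 := by
  rw [Finset.sum_congr rfl fun i _ => (kT_pow (κ := κ) m i).symm, ← kT_sum, h, kT_zero]

theorem fix_WW_aux (N : ℕ) (hE : ∀ x : E, N • x = x) (hY : ∀ y : Y, N • y = y)
    (z : (Mt (A0 J))ˣ) (h1 : ∑ i ∈ Finset.range N, (z : Mt (A0 J)) ^ i = 0)
    (h2 : ∑ i ∈ Finset.range N, ((z⁻¹ : (Mt (A0 J))ˣ) : Mt (A0 J)) ^ i = 0) (w : WW E Y)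
    (hw : ((sgR z, 1) : (G1s κ E) × C) • w = w) : w = 0 := by
  have hw1 : (((sgR z, 1) : (G1s κ E) × C) • w).1 = w.1 := by rw [hw]
  have hw2 : (((sgR z, 1) : (G1s κ E) × C) • w).2 = w.2 := by rw [hw]
  rw [ww_fst] at hw1
  rw [ww_snd] at hw2
  simp only [one_smul] at hw2
  refine Prod.ext ?_ ?_
  · exact fix_mact N hE (z : Mt (A0 J)) h1 w.1 hw1
  · exact fix_mact N hY (kT κ ((z⁻¹ : (Mt (A0 J))ˣ) : Mt (A0 J))) (kT_sum_zero N _ h2) w.2 hw2

/-- an element of order 151 acts without fixed vectors on `WW E Y` -/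
theorem fix_WW (z : (Mt (A0 J))ˣ) (hz : orderOf z = 151) (w : WW E Y)
    (hw : ((sgR z, 1) : (G1s κ E) × C) • w = w) : w = 0 :=
  fix_WW_aux 151 (fun x => nsmul151 (fun x => addE (J := J) x) x)
    (fun y => nsmul151 (fun y => addY κ y) y) z (sumA0 z hz) (sumA0' z hz) w hw

/-- `w ↦ s w - w` -/
def subMap {S M : Type} [Group S] [AddCommGroup M] [DistribMulAction S M] (s : S) : M →+ M where
  toFun w := s • w - w
  map_zero' := by simp
  map_add' a b := by rw [smul_add]; abel

theorem subMap_surj {S M : Type} [Group S] [AddCommGroup M] [DistribMulAction S M] [Finite M]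
    (s : S) (h : ∀ w : M, s • w = w → w = 0) : Function.Surjective (subMap (M := M) s) := by
  apply Finite.injective_iff_surjective.1
  rw [injective_iff_map_eq_zero]
  intro w hw
  exact h w (sub_eq_zero.1 hw)

theorem char_inl_aux {V S : Type} [AddCommGroup V] [Group S] [DistribMulAction S V] [Finite V]
    (s : S) (hs : ∀ w : V, s • w = w → w = 0) {T : Type} [CommGroup T] (f : SD V S →* T) (v : V) :
    f (SD.inl v) = 1 := by
  obtain ⟨w, hw⟩ := subMap_surj s hs v
  have h1 : f (SD.inl (s • w)) = f (SD.inl w) := by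
    rw [← SD.conj_inl, map_mul, map_mul, map_inv, mul_comm (f (SD.inr s)), mul_inv_cancel_right]
  have h2 : (SD.inl (s • w) : SD V S) = SD.inl v * SD.inl w := by
    rw [SD.inl_mul_inl, ← hw]
    change _ = SD.inl (s • w - w + w)
    rw [sub_add_cancel]
  rw [h2, map_mul] at h1
  exact mul_eq_right.1 h1

/-- characters are trivial on `WW` -/
theorem char_inl [Finite E] [Finite Y] (f : X (GG (G1s κ E) C Y)) (v : WW E Y) :
    f (SD.inl v) = 1 := by
  obtain ⟨z, hz⟩ := exists_zA (J := J)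
  exact char_inl_aux ((sgR z, 1) : (G1s κ E) × C) (fix_WW z hz) f v

/-- the element `(0, (sig D, 1))` -/
def yy : (Mt (A0 J))ˣ →* GG (G1s κ E) C Y :=
  SD.inr.comp ((MonoidHom.inl (G1s κ E) C).comp sgR)

theorem yy_eq (D : (Mt (A0 J))ˣ) :
    (yy D : GG (G1s κ E) C Y) = ⟨0, (sgR D, 1)⟩ := rfl

/-- the value of a character -/
theorem char_eq (hE : Finite E) (hY : Finite Y) (hC : commutator C = ⊤)
    (f : X (GG (G1s κ E) C Y)) (x : GG (G1s κ E) C Y) (D : (Mt (A0 J))ˣ) (hD : x.c.1 = sgR D) :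
    f x = f (yy (sc (GeneralLinearGroup.det (D : GL (Fin 15) (A0 J))))) := by
  have h1 : x = SD.inl x.v * (yy D * SD.inr (1, x.c.2)) := by
    ext1
    · simp [yy_eq]
    · refine Prod.ext ?_ ?_
      · simp [yy_eq, hD]
      · simp [yy_eq]
  have h2 : f (SD.inr (1, x.c.2)) = 1 := by
    let g : C →* C2 := (f.comp SD.inr).comp (MonoidHom.inr (G1s κ E) C)
    have : x.c.2 ∈ g.ker := by
      have h3 : commutator C ≤ g.ker := Abelianization.commutator_subset_ker g
      rw [hC] at h3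
      exact h3 trivial
    exact this
  have h4 := hom_eq_sc (f.comp yy) D
  calc f x = f (SD.inl x.v) * (f (yy D) * f (SD.inr (1, x.c.2))) := by
        conv_lhs => rw [h1]
        rw [map_mul, map_mul]
    _ = f (yy D) := by rw [char_inl, h2, one_mul, mul_one]
    _ = _ := h4

/-- the identification of characters with functionals on `W^15` -/
noncomputable def chi (Φ : J ≃+ (Fin 15 → W)) (f : X (GG (G1s κ E) C Y)) : DV W :=
  (AddMonoidHom.toMultiplicative.symm (((f.comp yy).comp sc).comp onej)).comp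
    (Φ.symm : (Fin 15 → W) ≃+ J).toAddMonoidHom

theorem chi_ev (f : X (GG (G1s κ E) C Y)) (w : Fin 15 → W) :
    DV.ev (chi Φ f) w =
      Multiplicative.toAdd (f (yy (sc (onej (Multiplicative.ofAdd (Φ.symm w)))))) := rfl

theorem chi_mul (f f' : X (GG (G1s κ E) C Y)) : chi Φ (f * f') = chi Φ f + chi Φ f' := rfl

theorem DV_ext {φ ψ : DV W} (h : ∀ w, DV.ev φ w = DV.ev ψ w) : φ = ψ := AddMonoidHom.ext h

theorem chi_bijective (hκ : Function.Injective κ) (hE : Finite E) (hY : Finite Y)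
    (hC : commutator C = ⊤) :
    Function.Bijective (chi (κ := κ) (E := E) (C := C) (Y := Y) Φ) := by
  constructor
  · intro f f' hff
    apply MonoidHom.ext
    intro x
    obtain ⟨D, hD⟩ := sgR_surj x.c.1
    rw [char_eq hE hY hC f x D hD.symm, char_eq hE hY hC f' x D hD.symm]
    have h1 := congrArg (fun φ => DV.ev φ (Φ (Multiplicative.toAdd
      (sndU (GeneralLinearGroup.det (D : GL (Fin 15) (A0 J))))))) hff
    simp only [chi_ev, AddEquiv.symm_apply_apply, ofAdd_toAdd, onej_sndU] at h1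
    exact Multiplicative.toAdd.injective h1
  · intro φ
    let e : (Mt (A0 J))ˣ ≃* (sig κ E).range := MonoidHom.ofInjective (sig_injective (E := E) hκ)
    let f1 : (Mt (A0 J))ˣ →* C2 :=
      ((AddMonoidHom.toMultiplicative
        (AddMonoidHom.comp (show (Fin 15 → W) →+ ZMod 2 from φ) (Φ : J ≃+ (Fin 15 → W)).toAddMonoidHom)).comp
        sndU).comp (GeneralLinearGroup.det (n := Fin 15) (R := A0 J))
    let f : X (GG (G1s κ E) C Y) :=
      ((f1.comp e.symm.toMonoidHom).comp (MonoidHom.fst (G1s κ E) C)).comp SD.pr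
    refine ⟨f, ?_⟩
    apply DV_ext
    intro w
    rw [chi_ev]
    have he : ∀ D : (Mt (A0 J))ˣ, e.symm (sgR D : G1s κ E) = D := by
      intro D
      rw [MulEquiv.symm_apply_eq]
      rfl
    have h1 : f (yy (sc (onej (Multiplicative.ofAdd (Φ.symm w))))) =
        f1 (sc (onej (Multiplicative.ofAdd (Φ.symm w)))) := by
      change f1 (e.symm (sgR (sc (onej (Multiplicative.ofAdd (Φ.symm w)))) : G1s κ E)) = _
      rw [he]
    rw [h1]
    change Multiplicative.toAdd ((AddMonoidHom.toMultiplicative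
        (AddMonoidHom.comp (show (Fin 15 → W) →+ ZMod 2 from φ)
          (Φ : J ≃+ (Fin 15 → W)).toAddMonoidHom))
        (sndU (GeneralLinearGroup.det (sc (onej (Multiplicative.ofAdd (Φ.symm w))) :
          GL (Fin 15) (A0 J))))) = _
    rw [det_sc, sndU_onej]
    change (show (Fin 15 → W) →+ ZMod 2 from φ) (Φ (Φ.symm w)) = _
    rw [AddEquiv.apply_symm_apply]
    rfl

theorem rel_one_add {n : (AddMonoid.End (Fin 15 → E))ˣ × (Mt B)ˣ} {m m' : Mt (A0 J)}
    (h : Rel κ E n m m') : Rel κ E n (1 + m) (1 + m') := by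
  obtain ⟨h1, h2⟩ := h
  refine ⟨?_, ?_⟩
  · rw [map_add, map_add, mul_add, add_mul, h1, map_one, mul_one, one_mul]
  · rw [kT_add, kT_add, mul_add, add_mul, h2, kT_one, mul_one, one_mul]

theorem sc_onej_val (j : J) : ((sc (onej (Multiplicative.ofAdd j)) : (Mt (A0 J))ˣ) : Mt (A0 J)) =
    1 + Matrix.scalar (Fin 15) (TrivSqZeroExt.inr j) := by
  rw [sc_val, onej_val, map_add, map_one]
  rfl

theorem sc_onej_inv (j : J) :
    (sc (onej (Multiplicative.ofAdd j)) : (Mt (A0 J))ˣ)⁻¹ = sc (onej (Multiplicative.ofAdd j)) := by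
  rw [inv_eq_iff_mul_eq_one, ← pow_two, ← map_pow, unit_sq, map_one]

/-- `Rel` for scalars as an identity in `NN` -/
theorem conj_sc {n : NN κ E} {j j' : J}
    (h : Rel κ E n.1 (Matrix.scalar (Fin 15) (TrivSqZeroExt.inr j))
      (Matrix.scalar (Fin 15) (TrivSqZeroExt.inr j'))) :
    n * sig κ E (sc (onej (Multiplicative.ofAdd j))) * n⁻¹ =
      sig κ E (sc (onej (Multiplicative.ofAdd j'))) := by
  have h1 := rel_one_add h
  rw [← sc_onej_val, ← sc_onej_val] at h1
  rw [mul_inv_eq_iff_eq_mul]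
  apply Subtype.ext
  refine Prod.ext ?_ ?_
  · apply Units.ext
    exact h1.1
  · apply Units.ext
    change ((n.1.2 : (Mt B)ˣ) : Mt B) * kT κ (((sc (onej (Multiplicative.ofAdd j)) :
      (Mt (A0 J))ˣ)⁻¹ : (Mt (A0 J))ˣ) : Mt (A0 J)) = kT κ (((sc (onej (Multiplicative.ofAdd j')) :
      (Mt (A0 J))ˣ)⁻¹ : (Mt (A0 J))ˣ) : Mt (A0 J)) * ((n.1.2 : (Mt B)ˣ) : Mt B)
    rw [sc_onej_inv, sc_onej_inv]
    exact h1.2

/-- equivariance of `chi` -/
theorem chi_act {q : NN κ E →* O} (hq : QSpec κ E Φ q) (hE : Finite E) (hY : Finite Y)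
    (hC : commutator C = ⊤)
    [DistribMulAction (GG (⊤ : Subgroup (NN κ E)) C Y) W]
    (hW : ∀ (g : GG (⊤ : Subgroup (NN κ E)) C Y) (w : W), g • w = q g.c.1.1 • w)
    (α : MulAut (GG (G1s κ E) C Y)) (g : GG (⊤ : Subgroup (NN κ E)) C Y)
    (hα : ∀ x, emb (α x) = g * emb x * g⁻¹) (f : X (GG (G1s κ E) C Y)) :
    chi Φ (act _ α f) = g • chi Φ f := by
  apply DV_ext
  intro w
  rw [DV.smul_ev, chi_ev, chi_ev, act_apply]
  congr 1
  set n : NN κ E := g.c.1.1 with hn
  obtain ⟨j', hj'⟩ := hq.rel n⁻¹ (Φ.symm w)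
  have hphi := hq.phi n⁻¹ _ _ hj'
  have hj'' : j' = Φ.symm (g⁻¹ • w) := by
    rw [AddEquiv.eq_symm_apply]
    funext i
    rw [hphi i, AddEquiv.apply_symm_apply]
    change _ = g⁻¹ • w i
    rw [hW]
    rfl
  have hc := conj_sc hj'
  rw [inv_inv] at hc
  -- the `c`-part of `α⁻¹ (yy ...)`
  set y : GG (G1s κ E) C Y := yy (sc (onej (Multiplicative.ofAdd (Φ.symm w)))) with hy
  have hα' : emb ((α⁻¹ : MulAut _) y) = g⁻¹ * emb y * g := by
    have := hα ((α⁻¹ : MulAut _) y)
    rw [MulAut.apply_inv_self] at this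
    rw [this]
    group
  have hcc : ((α⁻¹ : MulAut _) y).c.1 =
      (sgR (sc (onej (Multiplicative.ofAdd j'))) : G1s κ E) := by
    apply Subtype.ext
    have h1 : ((emb ((α⁻¹ : MulAut _) y)).c.1 : NN κ E) =
        n⁻¹ * sig κ E (sc (onej (Multiplicative.ofAdd (Φ.symm w)))) * n := by
      rw [hα']
      rfl
    rw [hc] at h1
    exact h1
  rw [char_eq hE hY hC f _ _ hcc, det_sc, hj'']

/-- the character part of `F_odd` -/
theorem F_odd_of_aut (h : GFacts κ inc jU Φ p) {q : NN κ E →* O} (hq : QSpec κ E Φ q)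
    (hC : Odd B C Y)
    [DistribMulAction (GG (⊤ : Subgroup (NN κ E)) C Y) W]
    (hW : ∀ (g : GG (⊤ : Subgroup (NN κ E)) C Y) (w : W), g • w = q g.c.1.1 • w)
    (a : GG (⊤ : Subgroup (NN κ E)) C Y ≃* MulAut (GG (G1s κ E) C Y))
    (ha : ∀ g x, emb (a g x) = g * emb x * g⁻¹) :
    Nonempty (F (GG (G1s κ E) C Y) ≃* SD (DV W) (GG (⊤ : Subgroup (NN κ E)) C Y)) := by
  have hb := chi_bijective (κ := κ) (E := E) (C := C) (Y := Y) (Φ := Φ) h.kapInj h.finE hC.finY
    hC.perf
  refine ⟨MulEquiv.ofBijective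
    ({ toFun := fun s => ⟨chi Φ s.left, a.symm s.right⟩
       map_one' := ?_
       map_mul' := ?_ } : F (GG (G1s κ E) C Y) →* SD (DV W) (GG (⊤ : Subgroup (NN κ E)) C Y)) ?_⟩
  · ext1
    · rfl
    · simp
  · intro s t
    ext1
    · change chi Φ (s.left * act _ s.right t.left) = chi Φ s.left + a.symm s.right • chi Φ t.left
      rw [chi_mul, chi_act hq h.finE hC.finY hC.perf hW s.right (a.symm s.right)]
      intro x
      have := ha (a.symm s.right) x
      rw [MulEquiv.apply_symm_apply] at this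
      exact this
    · change a.symm (s.right * t.right) = a.symm s.right * a.symm t.right
      rw [map_mul]
  · constructor
    · intro s t hst
      have h1 := congrArg SD.v hst
      have h2 := congrArg SD.c hst
      ext1
      · exact hb.1 h1
      · exact a.symm.injective h2
    · rintro ⟨φ, g⟩
      obtain ⟨f, hf⟩ := hb.2 φ
      refine ⟨⟨f, a g⟩, ?_⟩
      ext1
      · exact hf
      · change a.symm (a g) = g
        simp

end QX40
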